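import Pool.Agent.helper82.T6.SpecL
import Pool.Agent.helper97.FT.P5a

set_option autoImplicit false

namespace Pool.Agent.T6

open Finset Pool.Agent.helper3.FT

/-- a prime larger than 5 which divides `5 x` divides `x` -/
theorem Z6_five {p : ℕ} (hp : p.Prime) (h5 : 5 < p) {x : ℤ} (h : (p : ℤ) ∣ 5 * x) : (p : ℤ) ∣ x := by
  have hP : Prime (p : ℤ) := Nat.prime_iff_prime_int.1 hp
  rcases hP.dvd_or_dvd h with h1 | h1
  · exfalso
    have h2 : p ∣ 5 := by exact_mod_cast h1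
    have h3 := Nat.le_of_dvd (by norm_num) h2
    omega
  · exact h1

theorem Z6_two {p : ℕ} (hp : p.Prime) (h5 : 5 < p) {x : ℤ} (h : (p : ℤ) ∣ 2 * x) : (p : ℤ) ∣ x := by
  have hP : Prime (p : ℤ) := Nat.prime_iff_prime_int.1 hp
  rcases hP.dvd_or_dvd h with h1 | h1
  · exfalso
    have h2 : p ∣ 2 := by exact_mod_cast h1
    have h3 := Nat.le_of_dvd (by norm_num) h2
    omega
  · exact h1

theorem Z6_r {p r : ℕ} (hp : p.Prime) (hr : ¬ p ∣ r) {x : ℤ} (h : (p : ℤ) ∣ x * r) : (p : ℤ) ∣ x := by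
  have hP : Prime (p : ℤ) := Nat.prime_iff_prime_int.1 hp
  rcases hP.dvd_or_dvd h with h1 | h1
  · exact h1
  · exact absurd (by exact_mod_cast h1) hr

theorem Z6_r3 {p r : ℕ} (hp : p.Prime) (hr : ¬ p ∣ r) {x : ℤ} (h : (p : ℤ) ∣ x * (r : ℤ) ^ 3) :
    (p : ℤ) ∣ x := by
  have h1 : (p : ℤ) ∣ x * r * r * r := by
    have h2 : x * r * r * r = x * (r : ℤ) ^ 3 := by ring
    rw [h2]
    exact h
  exact Z6_r hp hr (Z6_r hp hr (Z6_r hp hr h1))

theorem Z6 : Z6_stmt := by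
  rintro H r ⟨A, A', B, X⟩ hH hR hr ⟨hF1, hF2⟩ hP hRV
  obtain ⟨p, hp, hpH⟩ := Nat.exists_prime_and_dvd (by omega : H ≠ 1)
  have h5 : 5 < p := hR p hp hpH
  have hpr : ¬ p ∣ r := by
    intro h
    have h1 : p ∣ Nat.gcd r H := Nat.dvd_gcd h hpH
    rw [hr] at h1
    exact hp.one_lt.ne' (Nat.dvd_one.1 h1)
  have hPm := hP p hp hpH
  simp only at hF1 hF2 hPm
  have hpH' : (p : ℤ) ∣ (H : ℤ) := by exact_mod_cast hpH
  have f1 : (p : ℤ) ∣ 5 * A * (r : ℤ) ^ 3 - 2 * A' * r + B := by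
    have h1 := hpH'.trans hF1
    unfold F1 at h1
    have h2 : 5 * A * (r : ℤ) ^ 3 - 2 * A' * r * 1 ^ 2 + B * 1 ^ 3 = 5 * A * (r : ℤ) ^ 3 - 2 * A' * r + B := by ring
    rw [h2] at h1
    exact h1
  have f2 : (p : ℤ) ∣ A' * (r : ℤ) ^ 3 + 2 * B * (r : ℤ) ^ 2 - 5 * X := by
    have h1 := hpH'.trans hF2
    unfold F2 at h1
    have h2 : A' * (r : ℤ) ^ 3 + 2 * B * (r : ℤ) ^ 2 * 1 - 5 * X * 1 ^ 3 =
      A' * (r : ℤ) ^ 3 + 2 * B * (r : ℤ) ^ 2 - 5 * X := by ring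
    rw [h2] at h1
    exact h1
  -- `B = X = 0`
  have c1 : B = 0 → X = 0 → False := by
    intro hB hX
    subst hB hX
    have a1 : (p : ℤ) ∣ A' := by
      apply Z6_r3 hp hpr
      have h2 : A' * (r : ℤ) ^ 3 + 2 * 0 * (r : ℤ) ^ 2 - 5 * 0 = A' * (r : ℤ) ^ 3 := by ring
      rw [h2] at f2
      exact f2
    have a2 : (p : ℤ) ∣ A := by
      apply Z6_five hp h5
      apply Z6_r3 hp hpr
      have h3 : (5 * A) * (r : ℤ) ^ 3 = (5 * A * (r : ℤ) ^ 3 - 2 * A' * r + 0) + A' * (2 * r) := by ring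
      rw [h3]
      exact dvd_add f1 (Dvd.dvd.mul_right a1 _)
    exact hPm ⟨a2, a1, dvd_zero _, dvd_zero _⟩
  -- `A = A' = 0`
  have c2 : A = 0 → A' = 0 → False := by
    intro hA hA'
    subst hA hA'
    have a1 : (p : ℤ) ∣ B := by
      have h2 : 5 * 0 * (r : ℤ) ^ 3 - 2 * 0 * r + B = B := by ring
      rw [h2] at f1
      exact f1
    have a2 : (p : ℤ) ∣ X := by
      apply Z6_five hp h5
      have h3 : 5 * X = B * (2 * (r : ℤ) ^ 2) - (0 * (r : ℤ) ^ 3 + 2 * B * (r : ℤ) ^ 2 - 5 * X) := by ring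
      rw [h3]
      exact dvd_sub (Dvd.dvd.mul_right a1 _) f2
    exact hPm ⟨dvd_zero _, dvd_zero _, a1, a2⟩
  -- `A = B = 0`
  have c3 : A = 0 → B = 0 → False := by
    intro hA hB
    subst hA hB
    have a1 : (p : ℤ) ∣ A' := by
      apply Z6_r hp hpr
      apply Z6_two hp h5
      have h2 : 2 * (A' * (r : ℤ)) = -(5 * 0 * (r : ℤ) ^ 3 - 2 * A' * r + 0) := by ring
      rw [h2]
      exact (dvd_neg).2 f1
    have a2 : (p : ℤ) ∣ X := by
      apply Z6_five hp h5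
      have h3 : 5 * X = A' * (r : ℤ) ^ 3 - (A' * (r : ℤ) ^ 3 + 2 * 0 * (r : ℤ) ^ 2 - 5 * X) := by ring
      rw [h3]
      exact dvd_sub (Dvd.dvd.mul_right a1 _) f2
    exact hPm ⟨dvd_zero _, a1, dvd_zero _, a2⟩
  have hRV' : Rf A A' B X = 0 := hRV
  rcases Rf_zero_cases A A' B X hRV' with ⟨n, k, hc, h1, h2⟩ | ⟨h3, h4⟩
  · left
    refine ⟨n, k, hc, ?_, ?_, h1, h2⟩
    · rintro rfl
      unfold F1 at h1
      unfold F2 at h2
      have hk : k ≠ 0 := by
        rintro rfl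
        exact not_isCoprime_zero_zero hc
      have hk3 : k ^ 3 ≠ 0 := pow_ne_zero 3 hk
      apply c1
      · have h3 : B * k ^ 3 = 0 := by linarith
        exact (mul_eq_zero.1 h3).resolve_right hk3
      · have h3 : X * k ^ 3 = 0 := by linarith
        exact (mul_eq_zero.1 h3).resolve_right hk3
    · rintro rfl
      unfold F1 at h1
      unfold F2 at h2
      have hn : n ≠ 0 := by
        rintro rfl
        exact not_isCoprime_zero_zero hc
      have hn3 : n ^ 3 ≠ 0 := pow_ne_zero 3 hn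
      apply c2
      · have h3 : A * n ^ 3 = 0 := by linarith
        exact (mul_eq_zero.1 h3).resolve_right hn3
      · have h3 : A' * n ^ 3 = 0 := by linarith
        exact (mul_eq_zero.1 h3).resolve_right hn3
  · right
    by_cases hB : B = 0
    · exfalso
      have h5 : A * X = 0 := by
        rw [hB, mul_zero] at h3
        linarith
      rcases mul_eq_zero.1 h5 with h6 | h6
      · exact c3 h6 hB
      · exact c1 hB h6
    · have h6 : 5 * A * B ^ 2 = A' ^ 3 := h4.resolve_left hB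
      have hA' : A' ≠ 0 := by
        intro hA'
        apply c2 _ hA'
        rw [hA'] at h6
        have h7 : A * B ^ 2 = 0 := by linarith
        exact (mul_eq_zero.1 h7).resolve_right (pow_ne_zero 2 hB)
      refine ⟨hA', hB, h6, ?_⟩
      show 5 * X * A' ^ 2 = B ^ 3
      apply mul_left_cancel₀ hA'
      calc A' * (5 * X * A' ^ 2) = 5 * X * A' ^ 3 := by ring
        _ = 5 * X * (5 * A * B ^ 2) := by rw [h6]
        _ = (25 * A * X) * B ^ 2 := by ring
        _ = (A' * B) * B ^ 2 := by rw [h3]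
        _ = A' * B ^ 3 := by ring

end Pool.Agent.T6
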